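import Mathlib
import Pool.Agent.Run7.h585.NF.PowC
import Pool.Agent.Run7.h585.NF.Loc

/-!
# The law of the prime powers in the numbers with small conductors

Let `K` be a number field of degree `d` and `0 < κ < 1`. The exceptional numbers are the `x ∈ K`, `x ≠ 0, 1`, with
`h(x) ≤ T` and `cond(x) + cond(1/x) + cond(x - 1) ≤ (3 - κ) h(x) + C` (for almost all numbers the left hand side is about
`3 h(x)`). The excess of a number `y` at a prime `v` at which `y` has a multiple zero is the size
`(v(y) - 1) log N(v)` of the part of the power of `v` which is lost in the conductor; the excesses of `x`, `1/x`, `x - 1`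
make up the defect `≥ κ h(x) - C` of an exceptional number.

With `X = d T`, for all exceptional numbers but a proportion of at most `exp (-δ √(T / log T))`, and for each of `x`, `1/x`,
`x - 1`:

* the excesses are distributed like `√(2κX/(3 log X))` copies of an exponential random variable with mean
  `√(κ X log X / 6)`;
* the excess of a prime is independent of its norm: among the primes with an excess `≥ t √(κ X log X / 6)`, a proportion
  `1 - 1/(2c)` have a norm up to `X ^ c` (`c ≥ 1/2`), whatever `t` is.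

So the multiplicities `v(y) - 1` at the primes with norms about `X ^ c`, `c > 1/2`, are distributed exponentially with mean
`√(κ X / (6 log X)) / c`, and the total excess of `y` is `√(2κX/(3 log X)) √(κ X log X / 6) = κ X / 3`.

Proof: the generating function of the points weighted by `c ^ #{v : N(v) ≤ u ^ (-t), (v(y) - 1) log N(v) ≥ b / u}` is
computed (the local factor is a geometric series cut at `N(v) ^ (-u e) = exp (-b)`), at `u ≈ √(6 / (κ X log X))` it is
`exp ((3 + (c - 1)(1 - 1/t) exp (-b) + o(1)) / (u log (1/u)))`; then Chernoff bounds, a grid, and the comparison with the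
number of all exceptional numbers, known up to `exp (o(√(T / log T)))` from the starting files `N906/RS`.
-/

set_option autoImplicit false

namespace Pool.Agent.Results.MP_f5a5f7_nt.PrimePowerLaw

open NumberField IsDedekindDomain Filter Topology

variable {K : Type} [Field K] [NumberField K]

/-- the height `h(x)`, as in the problem -/
noncomputable def height (x : K) : ℝ :=
  (1 / (Module.finrank ℚ K : ℝ)) *
    ((∑ w : InfinitePlace K, (w.mult : ℝ) * Real.log (max 1 (w x))) +
      ∑ᶠ v : HeightOneSpectrum (𝓞 K), Real.log (max 1 (FinitePlace.mk v x)))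

/-- the conductor `cond(x)`, as in the problem: the sum of `log N(v) / d` over the primes `v` at
which `x` has a positive valuation -/
noncomputable def cond (x : K) : ℝ :=
  (1 / (Module.finrank ℚ K : ℝ)) *
    (∑ᶠ v : HeightOneSpectrum (𝓞 K),
      (if FinitePlace.mk v x < 1 then Real.log (Ideal.absNorm v.asIdeal : ℝ) else 0))

/-- the number of the primes `v`, `N(v) ≤ z`, with `(v(x) - 1) log N(v) ≥ τ` (here `FinitePlace.mk v x = N(v) ^ (-v(x))`).
For `τ > 0` these are primes at which `x` has a multiple zero. -/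
noncomputable def excessCount (z τ : ℝ) (x : K) : ℕ :=
  {v : HeightOneSpectrum (𝓞 K) | (Ideal.absNorm v.asIdeal : ℝ) ≤ z ∧
    τ ≤ -Real.log (FinitePlace.mk v x) - Real.log (Ideal.absNorm v.asIdeal : ℝ)}.ncard

variable (K) in
/-- the exceptional numbers -/
def Exceptional (κ C T : ℝ) : Set K :=
  {x | x ≠ 0 ∧ x ≠ 1 ∧ height x ≤ T ∧
    cond x + cond x⁻¹ + cond (x - 1) ≤ (3 - κ) * height x + C}

variable (K) in
/-- the number of the prime powers: `√(2 κ X / (3 log X))`, `X = d T` -/
noncomputable def main (κ T : ℝ) : ℝ :=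
  √(2 * κ * ((Module.finrank ℚ K : ℝ) * T) / (3 * Real.log ((Module.finrank ℚ K : ℝ) * T)))

variable (K) in
/-- the mean size: `√(κ X log X / 6)`, `X = d T` -/
noncomputable def size (κ T : ℝ) : ℝ :=
  √(κ * ((Module.finrank ℚ K : ℝ) * T) * Real.log ((Module.finrank ℚ K : ℝ) * T) / 6)

variable (K) in
/-- the proportion with norm at most `z`: `max (0, 1 - log X / (2 log z))`, `X = d T` -/
noncomputable def part (T z : ℝ) : ℝ :=
  max 0 (1 - Real.log ((Module.finrank ℚ K : ℝ) * T) / (2 * Real.log z))

/-- the law of the prime powers in `x`, `1/x`, `x - 1`, with an error `ε` -/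
def PowerLaw (κ ε T : ℝ) (x : K) : Prop :=
  ∀ y ∈ ({x, x⁻¹, x - 1} : Set K), ∀ z t : ℝ, 2 ≤ z → 0 < t →
    |(excessCount z (t * size K κ T) y : ℝ) - part K T z * Real.exp (-t) * main K κ T| ≤
      ε * main K κ T

open Pool.Agent.Run7.h585.NF Pool.Agent.W223.AK in
theorem law_of {κ ε T : ℝ} (hκ : 0 < κ) (hT : 3 ≤ (Module.finrank ℚ K : ℝ) * T) {x : K}
    (hx : Pt (-x)) (h : Law κ ε ((Module.finrank ℚ K : ℝ) * T) (-x)) : PowerLaw κ ε T x := by
  intro y hy z t hz ht
  obtain ⟨l, hl⟩ : ∃ l : Fin 3, yy l (-x) = -y := by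
    revert hy
    rintro (rfl | rfl | rfl)
    · exact ⟨0, rfl⟩
    · refine ⟨1, ?_⟩
      show (-x)⁻¹ = _
      rw [inv_neg]
    · refine ⟨2, ?_⟩
      show -x + 1 = _
      ring
  have e1 : size K κ T = lam κ ((Module.finrank ℚ K : ℝ) * T) := (lam_eq hκ hT).symm
  have e2 : part K T z = pr ((Module.finrank ℚ K : ℝ) * T) z := rfl
  have e3 : main K κ T = s1 κ ((Module.finrank ℚ K : ℝ) * T) := rfl
  have h1 := lam_pos hκ hT
  have h2 := h l z (t * lam κ ((Module.finrank ℚ K : ℝ) * T)) hz (by positivity)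
  rw [cntE_yy hx l z (by positivity), hl, pwn_neg, mul_div_cancel_right₀ _ h1.ne'] at h2
  have e4 : excessCount z (t * size K κ T) y =
      pwn z (t * lam κ ((Module.finrank ℚ K : ℝ) * T)) y := by
    rw [e1]
    rfl
  rw [e4, e2, e3]
  exact h2

open Pool.Agent.Run7.h585.NF Pool.Agent.W223.AK in
/-- **The law of the prime powers.** Let `K` be a number field, `0 < κ < 1`, `C ≥ 0` and `ε > 0`. There are
`δ > 0` and `T₀` such that, for `T ≥ T₀`, the set of the exceptional numbers of height at most `T` is finite and all but at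
most the proportion `exp (-δ √(T / log T))` of its elements satisfy the law of the prime powers with the error `ε`. -/
theorem result : ∀ (K : Type) [Field K] [NumberField K] (κ C ε : ℝ), 0 < κ → κ < 1 → 0 ≤ C → 0 < ε →
    ∃ δ T₀ : ℝ, 0 < δ ∧ ∀ T : ℝ, T₀ ≤ T → (Exceptional K κ C T).Finite ∧
      (({x | x ∈ Exceptional K κ C T ∧ ¬ PowerLaw κ ε T x} : Set K).ncard : ℝ) ≤
        Real.exp (-(δ * √(T / Real.log T))) * (Exceptional K κ C T).ncard := by
  intro K _ _ κ C ε hκ hκ1 hC hε
  obtain ⟨d, hd⟩ : ∃ d : ℝ, d = (Module.finrank ℚ K : ℝ) := ⟨_, rfl⟩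
  have hd1 : 1 ≤ d := by
    rw [hd]
    exact_mod_cast (Module.finrank_pos (R := ℚ) (M := K))
  have hd0 : 0 < d := by linarith
  obtain ⟨δ, X₀, hδ, hX₀, h⟩ := prop_rare K κ (d * C) 0 hκ hκ1 (by positivity) le_rfl
    (fun X x => ¬ Law κ ε X x) (rare_law κ (d * C) ε hκ hκ1 (by positivity) hε)
  refine ⟨δ * √(κ * d / 3), max (max X₀ 3) d, by positivity, fun T hT => ?_⟩
  have hTa : X₀ ≤ T := ((le_max_left _ _).trans (le_max_left _ _)).trans hT
  have hT3 : 3 ≤ T := ((le_max_right _ _).trans (le_max_left _ _)).trans hT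
  have hTd : d ≤ T := (le_max_right _ _).trans hT
  have hT0 : 0 < T := by linarith
  have hht : ∀ x : K, ht x = d * height x := by
    intro x
    rw [ht_formula, hd]
    unfold height
    rw [← mul_assoc, mul_one_div_cancel (by rw [← hd]; exact hd0.ne'), one_mul]
  have hcd : ∀ y : K, cd y = d * cond y := by
    intro y
    unfold cd cond
    rw [hd, ← mul_assoc, mul_one_div_cancel (by rw [← hd]; exact hd0.ne'), one_mul]
  have hpt : ∀ x : K, x ≠ 0 → x ≠ 1 → Pt (-x) := by
    intro x h0 h1
    refine ⟨neg_ne_zero.2 h0, ?_⟩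
    intro h
    apply h1
    linear_combination -h
  have htr : ∀ x : K, Pt (-x) → Pool.Agent.N906.RS.tr (Pf (-x)) =
      d * (cond x + cond x⁻¹ + cond (x - 1)) := by
    intro x hx
    have e : -x + 1 = -(x - 1) := by ring
    rw [tr_eq hx, inv_neg, e, cd_neg, cd_neg, cd_neg, hcd, hcd, hcd]
    ring
  obtain ⟨A, hA⟩ : ∃ A : Set K, A = (fun x : K => -x) '' Exceptional K κ C T := ⟨_, rfl⟩
  obtain ⟨hfin, hB⟩ := h (d * T) (by nlinarith) A (by
    intro x hx h1 h2
    rw [hA]
    refine ⟨-x, ⟨neg_ne_zero.2 hx.1, ?_, ?_, ?_⟩, neg_neg x⟩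
    · intro h3
      apply hx.2
      linear_combination -h3
    · have h4 := hht (-x)
      rw [ht_neg] at h4
      rw [sub_zero, h4] at h1
      exact le_of_mul_le_mul_left h1 hd0
    · have hx' : Pt (- -x) := by rwa [neg_neg]
      have h4 := htr (-x) hx'
      have h5 := hht (-x)
      rw [ht_neg] at h5
      rw [neg_neg] at h4
      rw [h4, h5] at h2
      have h6 : d * (cond (-x) + cond (-x)⁻¹ + cond (-x - 1)) ≤
        d * ((3 - κ) * height (-x)) := by linarith
      have h7 := le_of_mul_le_mul_left h6 hd0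
      linarith) (by
    intro x hx
    rw [hA] at hx
    obtain ⟨y, ⟨g1, g2, g3, g4⟩, rfl⟩ := hx
    have hy := hpt y g1 g2
    refine ⟨hy, ?_, ?_⟩
    · show ht (-y) ≤ _
      rw [ht_neg, hht]
      exact mul_le_mul_of_nonneg_left g3 hd0.le
    · show Pool.Agent.N906.RS.tr (Pf (-y)) ≤ (3 - κ) * ht (-y) + d * C
      rw [htr y hy, ht_neg, hht]
      have := mul_le_mul_of_nonneg_left g4 hd0.le
      linarith)
  have hinj : Function.Injective (fun x : K => -x) := neg_injective
  have hfin' : (Exceptional K κ C T).Finite := by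
    rw [hA] at hfin
    exact hfin.of_finite_image hinj.injOn
  refine ⟨hfin', ?_⟩
  have h1 := hB ((fun x : K => -x) '' {x | x ∈ Exceptional K κ C T ∧ ¬ PowerLaw κ ε T x}) (by
    rw [hA]
    exact Set.image_mono fun x hx => hx.1) (by
    rintro _ ⟨x, ⟨g1, g2⟩, rfl⟩ ht
    apply g2
    have hx := hpt x g1.1 g1.2.1
    refine law_of hκ ?_ hx ?_
    · rw [← hd]
      nlinarith
    · rw [← hd]
      exact ht)
  rw [hA, Set.ncard_image_of_injective _ hinj, Set.ncard_image_of_injective _ hinj] at h1
  refine h1.trans ?_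
  apply mul_le_mul_of_nonneg_right _ (Nat.cast_nonneg _)
  apply Real.exp_le_exp.2
  have h2 := s1_ge (κ := κ) hκ.le hd1 hT3 hTd
  have h3 := mul_le_mul_of_nonneg_left h2 hδ.le
  linarith

end Pool.Agent.Results.MP_f5a5f7_nt.PrimePowerLaw
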