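import Mathlib
import Pool.Agent.Run7.h720.Ratio

set_option autoImplicit false

/-!
# The weak abc inequality, with every `κ > 1`, for quotients of short numbers in a number field

Let `K` be a number field and `Γ` a finitely generated subgroup of its multiplicative group (for
example, a group of `S`-units). We consider the numbers `x = p / q` in `K`, `x ≠ 0, 1`, such that `p` and
`q` are short: sums of `r` terms `c * γ` with `γ` in `Γ` and `c` of height at most `B * H(x) ^ δ`. For all
short `ρ` and all `τ`, such that outside a finite set `T` of primes the order of contact of `x` with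
`0`, `1` and `∞` is at most the order of `ρ ^ M * τ`, we prove `h(x) ≤ (1 + ε) (N_T(ρ) + N_T(τ)) + C`. If
`ρ` has at most simple zeros, at primes which are counted in the conductors, this is the weak abc
inequality with an arbitrary cofactor `τ`.
-/

namespace Pool.Agent.Results.MP_f5a5f7_nt.ShortNumbersAnyCofactor

open NumberField IsDedekindDomain Height
open Pool.Agent.K1H83.VN

variable {K : Type} [Field K] [NumberField K]

/-- The absolute logarithmic Weil height of `x`. -/
noncomputable def h (x : K) : ℝ := logHeight₁ x / Module.finrank ℚ K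

open Classical in
/-- The conductor `cond(x)`: the sum of `log N(v)` over the primes `v` with `|x|_v < 1`, divided by the
degree. -/
noncomputable def cond (x : K) : ℝ :=
  (∑ᶠ v : HeightOneSpectrum (𝓞 K), if FinitePlace.mk v x < 1 then
    Real.log (Ideal.absNorm v.asIdeal : ℝ) else 0) / Module.finrank ℚ K

/-- `ord_v (z)` times the logarithm of the norm of the prime `v`. (Mathlib's absolute value at `v` of
`z` is the norm of `v` to the power `-ord_v (z)`.) -/
noncomputable def ord (v : HeightOneSpectrum (𝓞 K)) (z : K) : ℝ := -Real.log (FinitePlace.mk v z)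

/-- The order of contact of `x` with `0`, `1` and `∞` at the prime `v`, times the logarithm of the norm
of `v`: the order of the zero or pole of `x`, plus the order of the zero of `1 - x`. -/
noncomputable def contact (v : HeightOneSpectrum (𝓞 K)) (x : K) : ℝ :=
  |ord v x| + max 0 (ord v (1 - x))

open Classical in
/-- `log N(v)` if `x` reduces to `0`, `1` or `∞` at the prime `v`, and zero otherwise. -/
noncomputable def localRad (v : HeightOneSpectrum (𝓞 K)) (x : K) : ℝ :=
  if FinitePlace.mk v x ≠ 1 ∨ FinitePlace.mk v (1 - x) ≠ 1 then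
    Real.log (Ideal.absNorm v.asIdeal : ℝ) else 0

/-- The absolute counting function of the zeros of `z` outside `T`: the sum of the `ord v z` over the
primes `v` outside `T`, divided by the degree of `K`. -/
noncomputable def counting (T : Set (HeightOneSpectrum (𝓞 K))) (z : K) : ℝ :=
  (∑ᶠ (v : HeightOneSpectrum (𝓞 K)) (_ : v ∉ T), ord v z) / Module.finrank ℚ K

/-- `z` is a sum of `r` terms `c * γ` with `γ` in `Γ` and `c` of (multiplicative, relative) height at
most `R`. -/
def IsShort (Γ : Subgroup Kˣ) (r : ℕ) (R : ℝ) (z : K) : Prop :=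
  ∃ (c : Fin r → K) (γ : Fin r → Kˣ), (∀ j, γ j ∈ Γ) ∧ (∀ j, mulHeight₁ (c j) ≤ R) ∧
    z = ∑ j, c j * (γ j : K)

/-! ### Auxiliary lemmas -/

theorem norm_nonneg (v : HeightOneSpectrum (𝓞 K)) :
    0 ≤ Real.log (Ideal.absNorm v.asIdeal : ℝ) := by
  refine Real.log_nonneg ?_
  have h5 : Ideal.absNorm v.asIdeal ≠ 0 := fun h => v.ne_bot (Ideal.absNorm_eq_zero_iff.1 h)
  exact_mod_cast Nat.one_le_iff_ne_zero.2 h5

theorem cond_support (x : K) (hx : x ≠ 0) :
    (Function.support fun v : HeightOneSpectrum (𝓞 K) => if FinitePlace.mk v x < 1 then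
      Real.log (Ideal.absNorm v.asIdeal : ℝ) else 0).Finite := by
  refine (Pool.Agent.W180.OP.fv_support_finite hx).subset fun v hv h => hv ?_
  have h1 : FinitePlace.mk v x = 1 := h
  show (if FinitePlace.mk v x < 1 then Real.log (Ideal.absNorm v.asIdeal : ℝ) else 0) = 0
  rw [h1, if_neg (lt_irrefl _)]

theorem localRad_le (v : HeightOneSpectrum (𝓞 K)) (x : K) (hx : x ≠ 0) :
    localRad v x ≤ (if FinitePlace.mk v x < 1 then Real.log (Ideal.absNorm v.asIdeal : ℝ) else 0) +
      (if FinitePlace.mk v x⁻¹ < 1 then Real.log (Ideal.absNorm v.asIdeal : ℝ) else 0) +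
      (if FinitePlace.mk v (x - 1) < 1 then Real.log (Ideal.absNorm v.asIdeal : ℝ) else 0) := by
  have hN := norm_nonneg v
  have hnn : ∀ y : K, 0 ≤ if FinitePlace.mk v y < 1 then
      Real.log (Ideal.absNorm v.asIdeal : ℝ) else 0 := by
    intro y
    split_ifs
    · exact hN
    · exact le_rfl
  have h1 := hnn x
  have h2 := hnn x⁻¹
  have h3 := hnn (x - 1)
  have e1 : FinitePlace.mk v x⁻¹ = (FinitePlace.mk v x)⁻¹ := map_inv₀ (FinitePlace.mk v) x
  have e2 : FinitePlace.mk v (1 - x) = FinitePlace.mk v (x - 1) := by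
    have := map_neg_eq_map (Pool.Agent.W180.OP.fv v) (x - 1)
    rw [neg_sub] at this
    exact this
  have hpos : 0 < FinitePlace.mk v x := (Pool.Agent.W180.OP.fv v).pos_iff.2 hx
  unfold localRad
  rcases lt_trichotomy (FinitePlace.mk v x) 1 with h | h | h
  · rw [if_pos h] at h1 ⊢
    split_ifs <;> linarith
  · by_cases h4 : FinitePlace.mk v (x - 1) = 1
    · rw [if_neg (by rw [e2, h, h4]; simp)]
      linarith
    · have h5 : FinitePlace.mk v (x - 1) ≤ 1 := by
        have := fv_na v x (-1)
        rw [map_neg_eq_map, map_one, ← sub_eq_add_neg] at this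
        refine this.trans (max_le ?_ le_rfl)
        exact le_of_eq h
      have h6 : FinitePlace.mk v (x - 1) < 1 := lt_of_le_of_ne h5 h4
      rw [if_pos h6] at h3 ⊢
      have h7 : (if FinitePlace.mk v x ≠ 1 ∨ FinitePlace.mk v (1 - x) ≠ 1 then
          Real.log (Ideal.absNorm v.asIdeal : ℝ) else 0) ≤
          Real.log (Ideal.absNorm v.asIdeal : ℝ) := by
        split_ifs
        · exact le_rfl
        · exact hN
      linarith
  · have h4 : FinitePlace.mk v x⁻¹ < 1 := by
      rw [e1]
      exact inv_lt_one_of_one_lt₀ h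
    rw [if_pos h4] at h2 ⊢
    have h7 : (if FinitePlace.mk v x ≠ 1 ∨ FinitePlace.mk v (1 - x) ≠ 1 then
        Real.log (Ideal.absNorm v.asIdeal : ℝ) else 0) ≤
        Real.log (Ideal.absNorm v.asIdeal : ℝ) := by
      split_ifs
      · exact le_rfl
      · exact hN
    linarith

/-- **Main theorem.** Let `K` be a number field, `T` a finite set of primes of `K`, `Γ` a finitely
generated subgroup of the multiplicative group of `K`, `r` and `M` natural numbers, `B` and `ε > 0`
real numbers. There are `δ > 0` and `C` such that the following holds for all `x = p / q`, `p` and `q` in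
`K`, `x ≠ 0, 1`, and all nonzero `ρ` and `τ` in `K`, integral outside `T`, such that `p`, `q` and `ρ` are
sums of `r` terms with coefficients of height at most `B H(x) ^ δ` and the order of contact of `x` with
`0`, `1` and `∞` is at most the order of `ρ ^ M * τ` outside `T`:
* `h(x) ≤ (1 + ε) (N_T(ρ) + N_T(τ)) + C`;
* if `ρ` has at most simple zeros outside `T`, at primes at which `x` reduces to `0`, `1` or `∞`, then
  `h(x) ≤ (1 + ε) (cond(x) + cond(1 / x) + cond(x - 1) + N_T(τ)) + C`. -/
theorem result (K : Type) [Field K] [NumberField K] (T : Set (HeightOneSpectrum (𝓞 K)))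
    (hT : T.Finite) (Γ : Subgroup Kˣ) (hΓ : Γ.FG) (r M : ℕ) (B ε : ℝ) (hε : 0 < ε) :
    ∃ δ C : ℝ, 0 < δ ∧ ∀ x p q ρ τ : K, x ≠ 0 → x ≠ 1 → q ≠ 0 → x = p / q → ρ ≠ 0 → τ ≠ 0 →
      (∀ v ∉ T, 0 ≤ ord v ρ) → (∀ v ∉ T, 0 ≤ ord v τ) →
      IsShort Γ r (B * mulHeight₁ x ^ δ) p → IsShort Γ r (B * mulHeight₁ x ^ δ) q →
      IsShort Γ r (B * mulHeight₁ x ^ δ) ρ →
      (∀ v ∉ T, contact v x ≤ M * ord v ρ + ord v τ) →
      h x ≤ (1 + ε) * (counting T ρ + counting T τ) + C ∧
        ((∀ v ∉ T, ord v ρ ≤ localRad v x) →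
          h x ≤ (1 + ε) * (cond x + cond x⁻¹ + cond (x - 1) + counting T τ) + C) := by
  classical
  obtain ⟨δ, C, hδ, hmain⟩ := Pool.Agent.Run7.h720.ratio_abc K Γ hΓ T hT r M B (ε / (1 + ε))
    (by positivity)
  have hd : (0 : ℝ) < Module.finrank ℚ K := by
    exact_mod_cast Module.finrank_pos
  refine ⟨δ, (1 + ε) * (|C| / Module.finrank ℚ K), hδ, ?_⟩
  intro x p q ρ τ hx0 hx1 hq0 hxpq hρ0 hτ0 hρT hτT hsp hsq hsρ hdiv
  have hp0 : p ≠ 0 := by
    rintro rfl
    exact hx0 (by rw [hxpq, zero_div])
  have hpq : p ≠ q := by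
    rintro rfl
    exact hx1 (by rw [hxpq, div_self hq0])
  have hord : ∀ (v : HeightOneSpectrum (𝓞 K)) (z : K), z ≠ 0 → 0 ≤ ord v z →
      Pool.Agent.W180.OP.fv v z ≤ 1 := by
    intro v z hz hv
    have h1 : ord v z = -Real.log (Pool.Agent.W180.OP.fv v z) := rfl
    rw [h1] at hv
    by_contra hcon
    push Not at hcon
    have := Real.log_pos hcon
    linarith
  rw [hxpq] at hsp hsq hsρ
  have key := hmain p q ρ τ hp0 hq0 hpq hρ0 hτ0 (fun v hv => hord v ρ hρ0 (hρT v hv))
    (fun v hv => hord v τ hτ0 (hτT v hv)) hsp hsq hsρ (by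
      intro v hv
      have h1 := hdiv v hv
      have h2 : (M : ℝ) * ord v ρ + ord v τ =
          -(M * Real.log (Pool.Agent.W180.OP.fv v ρ) +
            Real.log (Pool.Agent.W180.OP.fv v τ)) := by
        have e1 : ord v ρ = -Real.log (Pool.Agent.W180.OP.fv v ρ) := rfl
        have e2 : ord v τ = -Real.log (Pool.Agent.W180.OP.fv v τ) := rfl
        rw [e1, e2]
        ring
      rw [h2] at h1
      refine le_trans (le_of_eq ?_) h1
      rw [← hxpq]
      unfold contact Pool.Agent.Run7.h720.bo
      have e3 : ord v x = -Real.log (Pool.Agent.W180.OP.fv v x) := rfl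
      rw [e3, abs_neg]
      rfl)
  rw [← hxpq] at key
  have hcnt : ∀ x : K, Pool.Agent.Run7.h720.cnt T x = Module.finrank ℚ K * counting T x := by
    intro x
    unfold counting
    rw [mul_div_cancel₀ _ hd.ne']
    rfl
  have hh : logHeight₁ x = Module.finrank ℚ K * h x := by
    unfold h
    rw [mul_div_cancel₀ _ hd.ne']
  rw [hcnt, hcnt, hh] at key
  have hC := le_abs_self C
  have hCd : |C| = Module.finrank ℚ K * (|C| / Module.finrank ℚ K) := by
    rw [mul_div_cancel₀ _ hd.ne']
  have h1 : (1 - ε / (1 + ε)) * h x ≤ counting T ρ + counting T τ + |C| / Module.finrank ℚ K := by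
    refine le_of_mul_le_mul_left ?_ hd
    have h2 : (Module.finrank ℚ K : ℝ) * ((1 - ε / (1 + ε)) * h x) =
        (1 - ε / (1 + ε)) * (Module.finrank ℚ K * h x) := by ring
    rw [h2, mul_add, mul_add, ← hCd]
    linarith
  have h4 : h x = (1 + ε) * ((1 - ε / (1 + ε)) * h x) := by
    field_simp
    ring
  have hfirst : h x ≤ (1 + ε) * (counting T ρ + counting T τ) +
      (1 + ε) * (|C| / Module.finrank ℚ K) := by
    rw [h4, ← mul_add]
    exact mul_le_mul_of_nonneg_left h1 (by linarith)
  refine ⟨hfirst, fun hle => hfirst.trans ?_⟩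
  have hs1 := cond_support x hx0
  have hs2 := cond_support x⁻¹ (inv_ne_zero hx0)
  have hs3 := cond_support (x - 1) (sub_ne_zero.2 hx1)
  have h5 : counting T ρ ≤ cond x + cond x⁻¹ + cond (x - 1) := by
    unfold counting cond
    rw [← add_div, ← add_div]
    refine div_le_div_of_nonneg_right ?_ hd.le
    rw [← finsum_add_distrib hs1 hs2, ← finsum_add_distrib ((hs1.union hs2).subset
      (Function.support_add _ _)) hs3]
    refine finsum_le_finsum' ?_ ((((hs1.union hs2).subset (Function.support_add _ _)).union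
      hs3).subset (Function.support_add _ _)) fun v => ?_
    · refine (Pool.Agent.Run7.h720.log_fv_support ρ hρ0).subset fun v hv h => hv ?_
      have h2 : Real.log (Pool.Agent.W180.OP.fv v ρ) = 0 := h
      have h3 : ord v ρ = 0 := by
        show -Real.log (Pool.Agent.W180.OP.fv v ρ) = 0
        rw [h2, neg_zero]
      show ∑ᶠ (_ : v ∉ T), ord v ρ = 0
      rw [h3]
      exact finsum_zero
    · have h6 := localRad_le v x hx0
      have h7 : 0 ≤ localRad v x := by
        unfold localRad
        split_ifs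
        · exact norm_nonneg v
        · exact le_rfl
      rw [finsum_eq_if]
      by_cases hv : v ∈ T
      · rw [if_neg (not_not.2 hv)]
        exact h7.trans h6
      · rw [if_pos hv]
        exact (hle v hv).trans h6
  have h6 : (1 + ε) * (counting T ρ + counting T τ) ≤
      (1 + ε) * (cond x + cond x⁻¹ + cond (x - 1) + counting T τ) :=
    mul_le_mul_of_nonneg_left (by linarith) (by linarith)
  linarith

end Pool.Agent.Results.MP_f5a5f7_nt.ShortNumbersAnyCofactor
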