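import Mathlib
import Pool.Agent.Run7.h585.NF.Loc

/-!
# The anatomy of the numbers with small conductors

Let `K` be a number field of degree `d` and `0 < κ < 1`. The exceptional numbers are the `x ∈ K`, `x ≠ 0, 1`, with
`h(x) ≤ T` and `cond(x) + cond(1/x) + cond(x - 1) ≤ (3 - κ) h(x) + C` (for almost all numbers the left hand side is about
`3 h(x)`). All of them but a proportion of at most `exp (-δ √(T / log T))` look alike:

* the height is `(1 - o(1)) T`, and `x` is not close to `0`, `1`, `∞` at any infinite place;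
* each of the three conductors `cond(x)`, `cond(1/x)`, `cond(x - 1)` is `(1 - κ/3 + o(1)) T`: the defect `κ T` is shared
  equally;
* each of `x`, `1/x`, `x - 1` has a multiple zero at `(√(2/3) + o(1)) √(κ X / log X)` primes, `X = d T`; a proportion
  `1 - 1/(2c)` of these primes has a norm up to `X ^ c` (`c ≥ 1/2`), so that almost all of these primes have a norm
  larger than `X ^ (1/2 - ε)` and half of them a norm larger than `X`;
* these primes contribute only `o(T)` to the conductors: the defect comes from high powers of few small primes.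

Proof: the points are counted with weights which are multiplicative in the squareful parts of the three ideals (the gap
principle reduces this to a generating function, whose Euler product is computed with a cut-off at `u ^ (-t)`,
`u ≈ √(6 / (κ X log X))`), and compared with the number of all exceptional numbers, known up to
`exp (o(√(T / log T)))` from the starting files `N906/RS`.
-/

set_option autoImplicit false

namespace Pool.Agent.Results.MP_f5a5f7_nt.TypicalNumbers

open NumberField IsDedekindDomain Filter Topology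

variable {K : Type} [Field K] [NumberField K]

/-- the height `h(x)`, as in the problem -/
noncomputable def height (x : K) : ℝ :=
  (1 / (Module.finrank ℚ K : ℝ)) *
    ((∑ w : InfinitePlace K, (w.mult : ℝ) * Real.log (max 1 (w x))) +
      ∑ᶠ v : HeightOneSpectrum (𝓞 K), Real.log (max 1 (FinitePlace.mk v x)))

/-- the conductor `cond(x)`, as in the problem: the sum of `log N(v) / d` over the primes `v` at
which `x` has a positive valuation -/
noncomputable def cond (x : K) : ℝ :=
  (1 / (Module.finrank ℚ K : ℝ)) *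
    (∑ᶠ v : HeightOneSpectrum (𝓞 K),
      (if FinitePlace.mk v x < 1 then Real.log (Ideal.absNorm v.asIdeal : ℝ) else 0))

/-- the same with the primes `v` at which `x` has a valuation `≥ 2`, that is `|x|_v ≤ N(v) ^ (-2)` (`FinitePlace.mk v`
is the absolute value for which a uniformizer has the value `N(v)⁻¹`) -/
noncomputable def multipleCond (x : K) : ℝ :=
  (1 / (Module.finrank ℚ K : ℝ)) *
    (∑ᶠ v : HeightOneSpectrum (𝓞 K),
      (if FinitePlace.mk v x ≤ ((Ideal.absNorm v.asIdeal : ℝ) ^ 2)⁻¹ then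
        Real.log (Ideal.absNorm v.asIdeal : ℝ) else 0))

/-- the number of the primes `v`, `N(v) ≤ z`, at which `x` has a valuation `≥ 2` -/
noncomputable def multipleCount (z : ℝ) (x : K) : ℕ :=
  {v : HeightOneSpectrum (𝓞 K) | (Ideal.absNorm v.asIdeal : ℝ) ≤ z ∧
    FinitePlace.mk v x ≤ ((Ideal.absNorm v.asIdeal : ℝ) ^ 2)⁻¹}.ncard

variable (K) in
/-- the exceptional numbers -/
def Exceptional (κ C T : ℝ) : Set K :=
  {x | x ≠ 0 ∧ x ≠ 1 ∧ height x ≤ T ∧
    cond x + cond x⁻¹ + cond (x - 1) ≤ (3 - κ) * height x + C}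

variable (K) in
/-- the typical number of primes with a multiple zero: `√(2 κ X / (3 log X))`, `X = d T` -/
noncomputable def main (κ T : ℝ) : ℝ :=
  √(2 * κ * ((Module.finrank ℚ K : ℝ) * T) / (3 * Real.log ((Module.finrank ℚ K : ℝ) * T)))

variable (K) in
/-- the typical proportion of those with norm at most `z`: `max (0, 1 - log X / (2 log z))`, `X = d T` -/
noncomputable def part (T z : ℝ) : ℝ :=
  max 0 (1 - Real.log ((Module.finrank ℚ K : ℝ) * T) / (2 * Real.log z))

/-- the typical exceptional numbers -/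
structure Typical (κ ε T : ℝ) (x : K) : Prop where
  height_ge : (1 - ε) * T ≤ height x
  infinite : ∀ w : InfinitePlace K, Real.exp (-(ε * T)) ≤ w x ∧ w x ≤ Real.exp (ε * T) ∧
    Real.exp (-(ε * T)) ≤ w (x - 1)
  conductors : ∀ y ∈ ({x, x⁻¹, x - 1} : Set K), |cond y - (1 - κ / 3) * T| ≤ ε * T
  multiple : ∀ y ∈ ({x, x⁻¹, x - 1} : Set K), multipleCond y ≤ ε * T
  counts : ∀ y ∈ ({x, x⁻¹, x - 1} : Set K), ∀ z : ℝ, 2 ≤ z →
    |(multipleCount z y : ℝ) - part K T z * main K κ T| ≤ ε * main K κ T

open Pool.Agent.Run7.h585.NF Pool.Agent.W223.AK in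
theorem typ_of {κ ε T : ℝ} (hT : 0 < T) (hε : 0 < ε) {x : K} (hx : Pt (-x))
    (h : Typ κ (ε / (Module.finrank ℚ K : ℝ)) ((Module.finrank ℚ K : ℝ) * T) (-x)) :
    Typical κ ε T x := by
  obtain ⟨h1, h2, h3, -, h5, h6⟩ := h
  obtain ⟨d, hd⟩ : ∃ d : ℝ, d = (Module.finrank ℚ K : ℝ) := ⟨_, rfl⟩
  have hd1 : 1 ≤ d := by
    rw [hd]
    exact_mod_cast (Module.finrank_pos (R := ℚ) (M := K))
  have hd0 : 0 < d := by linarith
  rw [← hd] at h1 h2 h3 h5 h6
  have hεd : ε / d * (d * T) = ε * T := by field_simp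
  have hεd2 : ε / d ≤ ε := div_le_self hε.le hd1
  have hht : ht (-x) = d * height x := by
    rw [ht_neg, ht_formula, hd]
    unfold height
    rw [← mul_assoc, mul_one_div_cancel (by rw [← hd]; exact hd0.ne'), one_mul]
  have hcd : ∀ y : K, cd y = d * cond y := by
    intro y
    unfold cd cond
    rw [hd, ← mul_assoc, mul_one_div_cancel (by rw [← hd]; exact hd0.ne'), one_mul]
  have hsq : ∀ y : K, sqd y = d * multipleCond y := by
    intro y
    unfold sqd multipleCond
    rw [hd, ← mul_assoc, mul_one_div_cancel (by rw [← hd]; exact hd0.ne'), one_mul]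
  have hyy : ∀ y ∈ ({x, x⁻¹, x - 1} : Set K), ∃ l : Fin 3, yy l (-x) = -y := by
    rintro y (rfl | rfl | rfl)
    · exact ⟨0, rfl⟩
    · refine ⟨1, ?_⟩
      show (-x)⁻¹ = _
      rw [inv_neg]
    · refine ⟨2, ?_⟩
      show -x + 1 = _
      ring
  refine ⟨?_, fun w => ?_, fun y hy => ?_, fun y hy => ?_, fun y hy z hz => ?_⟩
  · rw [hht] at h1
    have h7 : (1 - ε) * (d * T) ≤ (1 - ε / d) * (d * T) :=
      mul_le_mul_of_nonneg_right (by linarith) (by positivity)
    nlinarith
  · rw [hεd] at h2
    have h7 := inf_le hx (by positivity) h2 w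
    have e1 : w (-x) = w x := w.1.map_neg x
    have e2 : w (-x + 1) = w (x - 1) := by
      have : -x + 1 = -(x - 1) := by ring
      rw [this]
      exact w.1.map_neg _
    rw [e1, e2] at h7
    exact ⟨h7.2.1, h7.1, h7.2.2⟩
  · obtain ⟨l, hl⟩ := hyy y hy
    have h7 := h5 l
    rw [rl_eq hx, hl, cd_neg, hcd, hεd] at h7
    have e : d * cond y - (1 - κ / 3) * (d * T) = d * (cond y - (1 - κ / 3) * T) := by ring
    rw [e, abs_mul, abs_of_pos hd0] at h7
    have h8 : 0 ≤ |cond y - (1 - κ / 3) * T| := abs_nonneg _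
    nlinarith
  · obtain ⟨l, hl⟩ := hyy y hy
    have h7 : rl (Ef (-x) l) ≤ Pool.Agent.N906.RS.tr (Ef (-x)) := by
      unfold Pool.Agent.N906.RS.tr
      exact Finset.single_le_sum (f := fun l => rl (Ef (-x) l)) (fun l _ => rl_nonneg _)
        (Finset.mem_univ l)
    rw [rl_eq2 hx, hl, sqd_neg] at h7
    have h8 := h7.trans h3
    rw [hεd] at h8
    have h9 : 0 ≤ sqd y := sqd_nonneg y
    rw [hsq] at h8 h9
    have h10 : 0 ≤ multipleCond y := by
      by_contra hc
      rw [not_le] at hc
      nlinarith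
    nlinarith
  · obtain ⟨l, hl⟩ := hyy y hy
    have h7 := h6 l z hz
    rw [cnt_eq hx, hl, sqn_neg] at h7
    have e1 : multipleCount z y = sqn z y := rfl
    have e2 : part K T z = pr (d * T) z := by rw [hd]; rfl
    have e3 : main K κ T = s1 κ (d * T) := by rw [hd]; rfl
    rw [e1, e2, e3]
    refine h7.trans ?_
    exact mul_le_mul_of_nonneg_right hεd2 (s1_nonneg _ _)

open Pool.Agent.Run7.h585.NF Pool.Agent.W223.AK in
/-- **The typical numbers with small conductors.** Let `K` be a number field, `0 < κ < 1`, `C ≥ 0` and `ε > 0`. There are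
`δ > 0` and `T₀` such that, for `T ≥ T₀`, the set of the exceptional numbers of height at most `T` is finite and all but at
most the proportion `exp (-δ √(T / log T))` of its elements are typical. -/
theorem result : ∀ (K : Type) [Field K] [NumberField K] (κ C ε : ℝ), 0 < κ → κ < 1 → 0 ≤ C → 0 < ε →
    ∃ δ T₀ : ℝ, 0 < δ ∧ ∀ T : ℝ, T₀ ≤ T → (Exceptional K κ C T).Finite ∧
      (({x | x ∈ Exceptional K κ C T ∧ ¬ Typical κ ε T x} : Set K).ncard : ℝ) ≤
        Real.exp (-(δ * √(T / Real.log T))) * (Exceptional K κ C T).ncard := by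
  intro K _ _ κ C ε hκ hκ1 hC hε
  obtain ⟨d, hd⟩ : ∃ d : ℝ, d = (Module.finrank ℚ K : ℝ) := ⟨_, rfl⟩
  have hd1 : 1 ≤ d := by
    rw [hd]
    exact_mod_cast (Module.finrank_pos (R := ℚ) (M := K))
  have hd0 : 0 < d := by linarith
  obtain ⟨δ, X₀, hδ, hX₀, h⟩ := prop_typ K κ (d * C) 0 (ε / d) hκ hκ1 (by positivity) le_rfl
    (by positivity)
  refine ⟨δ * √(κ * d / 3), max (max X₀ 3) d, by positivity, fun T hT => ?_⟩
  have hTa : X₀ ≤ T := ((le_max_left _ _).trans (le_max_left _ _)).trans hT
  have hT3 : 3 ≤ T := ((le_max_right _ _).trans (le_max_left _ _)).trans hT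
  have hTd : d ≤ T := (le_max_right _ _).trans hT
  have hT0 : 0 < T := by linarith
  have hht : ∀ x : K, ht x = d * height x := by
    intro x
    rw [ht_formula, hd]
    unfold height
    rw [← mul_assoc, mul_one_div_cancel (by rw [← hd]; exact hd0.ne'), one_mul]
  have hcd : ∀ y : K, cd y = d * cond y := by
    intro y
    unfold cd cond
    rw [hd, ← mul_assoc, mul_one_div_cancel (by rw [← hd]; exact hd0.ne'), one_mul]
  have hpt : ∀ x : K, x ≠ 0 → x ≠ 1 → Pt (-x) := by
    intro x h0 h1
    refine ⟨neg_ne_zero.2 h0, ?_⟩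
    intro h
    apply h1
    linear_combination -h
  have htr : ∀ x : K, Pt (-x) → Pool.Agent.N906.RS.tr (Pf (-x)) =
      d * (cond x + cond x⁻¹ + cond (x - 1)) := by
    intro x hx
    have e : -x + 1 = -(x - 1) := by ring
    rw [tr_eq hx, inv_neg, e, cd_neg, cd_neg, cd_neg, hcd, hcd, hcd]
    ring
  obtain ⟨A, hA⟩ : ∃ A : Set K, A = (fun x : K => -x) '' Exceptional K κ C T := ⟨_, rfl⟩
  obtain ⟨hfin, hB⟩ := h (d * T) (by nlinarith) A (by
    intro x hx h1 h2
    rw [hA]
    refine ⟨-x, ⟨neg_ne_zero.2 hx.1, ?_, ?_, ?_⟩, neg_neg x⟩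
    · intro h3
      apply hx.2
      linear_combination -h3
    · have h4 := hht (-x)
      rw [ht_neg] at h4
      rw [sub_zero, h4] at h1
      exact le_of_mul_le_mul_left h1 hd0
    · have hx' : Pt (- -x) := by rwa [neg_neg]
      have h4 := htr (-x) hx'
      have h5 := hht (-x)
      rw [ht_neg] at h5
      rw [neg_neg] at h4
      rw [h4, h5] at h2
      have h6 : d * (cond (-x) + cond (-x)⁻¹ + cond (-x - 1)) ≤
        d * ((3 - κ) * height (-x)) := by linarith
      have h7 := le_of_mul_le_mul_left h6 hd0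
      linarith) (by
    intro x hx
    rw [hA] at hx
    obtain ⟨y, ⟨g1, g2, g3, g4⟩, rfl⟩ := hx
    have hy := hpt y g1 g2
    refine ⟨hy, ?_, ?_⟩
    · show ht (-y) ≤ _
      rw [ht_neg, hht]
      exact mul_le_mul_of_nonneg_left g3 hd0.le
    · show Pool.Agent.N906.RS.tr (Pf (-y)) ≤ (3 - κ) * ht (-y) + d * C
      rw [htr y hy, ht_neg, hht]
      have := mul_le_mul_of_nonneg_left g4 hd0.le
      linarith)
  have hinj : Function.Injective (fun x : K => -x) := neg_injective
  have hfin' : (Exceptional K κ C T).Finite := by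
    rw [hA] at hfin
    exact hfin.of_finite_image hinj.injOn
  refine ⟨hfin', ?_⟩
  have h1 := hB ((fun x : K => -x) '' {x | x ∈ Exceptional K κ C T ∧ ¬ Typical κ ε T x}) (by
    rw [hA]
    exact Set.image_mono fun x hx => hx.1) (by
    rintro _ ⟨x, ⟨g1, g2⟩, rfl⟩ ht
    apply g2
    have hx := hpt x g1.1 g1.2.1
    refine typ_of hT0 hε hx ?_
    rw [← hd]
    exact ht)
  rw [hA, Set.ncard_image_of_injective _ hinj, Set.ncard_image_of_injective _ hinj] at h1
  refine h1.trans ?_
  apply mul_le_mul_of_nonneg_right _ (Nat.cast_nonneg _)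
  apply Real.exp_le_exp.2
  have h2 := s1_ge (κ := κ) hκ.le hd1 hT3 hTd
  have h3 := mul_le_mul_of_nonneg_left h2 hδ.le
  linarith

end Pool.Agent.Results.MP_f5a5f7_nt.TypicalNumbers
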